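import Pool.Agent.MP_856573_co.H74.Bas

/-! The frame of the path theorem: contraction of the corners, hanging parts, the induction. -/

namespace Pool.Agent.MP_856573_co.H74

open Set
open Pool.Agent.MP_31805c_co.H47 (Mac)
open Pool.Agent.MP_31805c_co.H93 (Conn)

namespace Top8

variable {V : Type} {G G' : SimpleGraph V}

/-- The graph on the branch sets `Bn`. -/
def Qt (G : SimpleGraph V) (Bn : V → Set V) : SimpleGraph V where
  Adj u v := u ≠ v ∧ SA G (Bn u) (Bn v)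
  symm := ⟨fun _ _ h => ⟨h.1.symm, h.2.symm⟩⟩
  loopless := ⟨fun _ h => h.1 rfl⟩

theorem qt_adj {Bn : V → Set V} {u v : V} : (Qt G Bn).Adj u v ↔ u ≠ v ∧ SA G (Bn u) (Bn v) :=
  Iff.rfl

theorem at_tr {U P Z Z' : Set V} {v : V} (hv : v ∈ U \ P)
    (h : ∀ u ∈ U, ∀ w ∈ U, G.Adj u w → G'.Adj u w) (hZ : ∀ u ∈ U, SA G Z {u} → SA G' Z' {u}) :
    (At G (U \ P) Z v).Nonempty → (At G' (U \ P) Z' v).Nonempty := by
  rintro ⟨x, hx, u, h1, h2⟩
  obtain ⟨z, hz, _, rfl, h3⟩ := hZ u (h1.mem hv).1 ⟨x, hx, u, rfl, h2.symm⟩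
  exact ⟨z, hz, _, conn_congr (fun a ha b hb => h a ha.1 b hb.1) h1, h3.symm⟩

/-- A good path for a graph with more edges to the corners is good. -/
theorem good_tr [Finite V] {U Z0 Z1 Z2 Y0 Y1 Y2 : Set V} {A B t : V}
    (h : ∀ u ∈ U, ∀ w ∈ U, G'.Adj u w ↔ G.Adj u w)
    (h0 : ∀ u ∈ U, SA G Z0 {u} → SA G' Y0 {u}) (h1 : ∀ u ∈ U, SA G Z1 {u} → SA G' Y1 {u})
    (h2 : ∀ u ∈ U, SA G (Z2 \ Z1) {u} → SA G' (Y2 \ Y1) {u}) (hg : Good G' U A B Y0 Y1 Y2 t) :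
    Good G U A B Z0 Z1 Z2 t := by
  obtain ⟨P, hP, hp, hc⟩ := hg
  refine ⟨P, hP, hp.congr fun u hu w hw => (h u (hP hu) w (hP hw)).1, fun v hv => ?_⟩
  have h' : ∀ u ∈ U, ∀ w ∈ U, G.Adj u w → G'.Adj u w := fun u hu w hw => (h u hu w hw).2
  have e : (At G (U \ P) P v).ncard ≤ (At G' (U \ P) P v).ncard := by
    refine ncard_le_ncard ?_ (toFinite _)
    rintro x ⟨hx, u, h3, h4⟩
    exact ⟨hx, u, conn_congr (fun a ha b hb => h' a ha.1 b hb.1) h3,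
      h' u (h3.mem hv).1 x (hP hx) h4⟩
  have e0 := tc_mono (at_tr hv h' h0)
  have e1 := tc_mono (at_tr hv h' h1)
  have e2 := tc_mono (at_tr hv h' h2)
  obtain ⟨c1, c2⟩ := hc v hv
  unfold cnt at *
  exact ⟨by omega, fun ht => (c2 ht).imp (by omega) (by omega)⟩

theorem good_swap {U Z0 Z1 : Set V} {A B t : V} (hg : Good G U A B Z1 Z0 Z0 t) :
    Good G U A B Z0 Z1 Z1 t := by
  obtain ⟨P, hP, hp, hc⟩ := hg
  refine ⟨P, hP, hp, fun v hv => ?_⟩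
  obtain ⟨c1, c2⟩ := hc v hv
  have e : tc G (U \ P) (Z1 \ Z1) v = 0 := tc_neg fun ⟨_, hx, _⟩ => hx.2 hx.1
  unfold cnt at *
  exact ⟨by omega, fun ht => (c2 ht).imp (by omega) id⟩

theorem fr_swap [Fintype V] [DecidableEq V] {U Z0 Z1 : Set V} {A B : V}
    (h : Fr G U A B Z0 Z1 Z1) : Fr G U A B Z1 Z0 Z0 :=
  ⟨h.mac, h.hA, h.hB, h.ne, h.conn, h.d1, h.d0, h.d0, h.d01.symm, h.d01.symm, Or.inl rfl, h.c1,
    h.c0, h.c0, h.a1, h.b2, h.a0, h.b0, h.e1.symm, h.e1.symm⟩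

theorem nh_tr {U : Set V} {A B : V} (h : ∀ u ∈ U, ∀ w ∈ U, G'.Adj u w ↔ G.Adj u w)
    (hn : NH G U A B) : NH G' U A B := fun y hy v hv hne =>
  let ⟨e, h1, h2, h3⟩ := hn y hy v hv hne
  ⟨e, h1, h2, conn_congr (fun a ha b hb => (h a ha.1 b hb.1).2) h3⟩

theorem bd_tr {U : Set V} {A B s : V} {q : ℕ → V} {m j : ℕ}
    (h : ∀ u ∈ U, ∀ w ∈ U, G'.Adj u w ↔ G.Adj u w) (hs : ∀ u ∈ U, G'.Adj s u ↔ G.Adj s u)
    (hb : Bd G U A B s s q m j) : Bd G' U A B s s q m j :=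
  ⟨hb.pa.congr (by
      rintro _ ⟨a, ha, rfl⟩ _ ⟨b, hb', rfl⟩
      exact (h _ (hb.sub a ha) _ (hb.sub b hb')).2), hb.q0, hb.qm, hb.sub, hb.jm,
    fun i hi => (hs _ (hb.sub i (hi.trans hb.jm))).2 (hb.l i hi),
    fun i hi hi' => (hs _ (hb.sub i hi')).2 (hb.r i hi hi'),
    fun u hu ha => hb.l' u hu ((hs u hu).1 ha), fun u hu ha => hb.r' u hu ((hs u hu).1 ha)⟩

end Top8

open Top8

theorem setf : StmtSETF := by
  intro V _ _ U A B t h G Z0 Z1 Z2 fr md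
  obtain ⟨s0, hs0, -⟩ := fr.a0
  obtain ⟨s1, hs1, -⟩ := fr.a1
  obtain ⟨s2, hs2, h12⟩ : ∃ s2 ∈ Z2, (s1 = s2 ∧ Z1 = Z2) ∨
      (s1 ≠ s2 ∧ Disjoint Z1 Z2 ∧ SA G Z1 Z2) := by
    rcases fr.d12 with e | e
    · exact ⟨s1, e ▸ hs1, Or.inl ⟨rfl, e⟩⟩
    · obtain ⟨s2, hs2, -⟩ := fr.b2
      exact ⟨s2, hs2, Or.inr ⟨fun e' => disjoint_left.1 e.1 hs1 (e' ▸ hs2), e⟩⟩
  have n0 : s0 ∉ U := disjoint_left.1 fr.d0 hs0
  have n1 : s1 ∉ U := disjoint_left.1 fr.d1 hs1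
  have n2 : s2 ∉ U := disjoint_left.1 fr.d2 hs2
  have n01 : s0 ≠ s1 := fun e => disjoint_left.1 fr.d01 hs0 (e ▸ hs1)
  have n02 : s0 ≠ s2 := fun e => disjoint_left.1 fr.d02 hs0 (e ▸ hs2)
  obtain ⟨Bn, b0, b1, b2, bU, bE⟩ : ∃ Bn : V → Set V, Bn s0 = Z0 ∧ Bn s1 = Z1 ∧ Bn s2 = Z2 ∧
      (∀ u ∈ U, Bn u = {u}) ∧ ∀ u, u ≠ s0 → u ≠ s1 → u ≠ s2 → u ∉ U → Bn u = ∅ := by
    classical
    refine ⟨fun u => if u = s0 then Z0 else if u = s1 then Z1 else if u = s2 then Z2 else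
      if u ∈ U then {u} else ∅, if_pos rfl, ?_, ?_, fun u hu => ?_, fun u h0 h1 h2 hu => ?_⟩
    · beta_reduce
      rw [if_neg n01.symm, if_pos rfl]
    · beta_reduce
      rw [if_neg n02.symm]
      rcases h12 with ⟨e, e'⟩ | ⟨e, -⟩
      · rw [if_pos e.symm, e']
      · rw [if_neg e.symm, if_pos rfl]
    · beta_reduce
      rw [if_neg fun (e : u = s0) => n0 (e ▸ hu), if_neg fun (e : u = s1) => n1 (e ▸ hu),
        if_neg fun (e : u = s2) => n2 (e ▸ hu), if_pos hu]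
    · beta_reduce
      rw [if_neg h0, if_neg h1, if_neg h2, if_neg hu]
  have cs : ∀ u, (u = s0 ∧ Bn u = Z0) ∨ (u = s1 ∧ Bn u = Z1) ∨ (u = s2 ∧ Bn u = Z2) ∨
      (u ∈ U ∧ Bn u = {u}) ∨ Bn u = ∅ := fun u => by
    by_cases h0 : u = s0
    · exact Or.inl ⟨h0, h0 ▸ b0⟩
    by_cases h1 : u = s1
    · exact Or.inr (Or.inl ⟨h1, h1 ▸ b1⟩)
    by_cases h2 : u = s2
    · exact Or.inr (Or.inr (Or.inl ⟨h2, h2 ▸ b2⟩))
    by_cases hu : u ∈ U
    · exact Or.inr (Or.inr (Or.inr (Or.inl ⟨hu, bU u hu⟩)))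
    · exact Or.inr (Or.inr (Or.inr (Or.inr (bE u h0 h1 h2 hu))))
  have mac : Mac (Qt G Bn) := by
    refine mac_minor fr.mac Bn (fun w w' hw => ?_) (fun w => ?_) fun _ _ ha => ha.2
    · have d12 : w = s1 → w' = s2 → Disjoint Z1 Z2 := fun e1 e2 =>
        (h12.resolve_left fun e => hw (e1.trans (e.1.trans e2.symm))).2.1
      have d21 : w = s2 → w' = s1 → Disjoint Z2 Z1 := fun e1 e2 =>
        (h12.resolve_left fun e => hw (e1.trans (e.1.symm.trans e2.symm))).2.1.symm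
      rcases cs w with ⟨e, e'⟩ | ⟨e, e'⟩ | ⟨e, e'⟩ | ⟨e, e'⟩ | e' <;>
        rcases cs w' with ⟨f, f'⟩ | ⟨f, f'⟩ | ⟨f, f'⟩ | ⟨f, f'⟩ | f' <;> rw [e', f'] <;>
        first
          | exact absurd (e.trans f.symm) hw
          | exact fr.d01
          | exact fr.d02
          | exact fr.d01.symm
          | exact fr.d02.symm
          | exact d12 e f
          | exact d21 e f
          | exact fr.d0.mono_right (singleton_subset_iff.2 f)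
          | exact fr.d1.mono_right (singleton_subset_iff.2 f)
          | exact fr.d2.mono_right (singleton_subset_iff.2 f)
          | exact fr.d0.symm.mono_left (singleton_subset_iff.2 e)
          | exact fr.d1.symm.mono_left (singleton_subset_iff.2 e)
          | exact fr.d2.symm.mono_left (singleton_subset_iff.2 e)
          | exact disjoint_singleton.2 hw
          | exact disjoint_empty _
          | exact empty_disjoint _
    · rcases cs w with ⟨-, e'⟩ | ⟨-, e'⟩ | ⟨-, e'⟩ | ⟨-, e'⟩ | e' <;> rw [e']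
      exacts [fr.c0, fr.c1, fr.c2, cn_single _, cn_empty]
  have aU : ∀ u ∈ U, ∀ w ∈ U, (Qt G Bn).Adj u w ↔ G.Adj u w := fun u hu w hw => by
    rw [qt_adj, bU u hu, bU w hw, sa_single]
    exact ⟨fun h => h.2, fun h => ⟨h.ne, h⟩⟩
  have aS : ∀ s ∉ U, ∀ u ∈ U, SA (Qt G Bn) {s} {u} ↔ SA G (Bn s) {u} := fun s hs u hu => by
    rw [sa_single, qt_adj, bU u hu]
    exact ⟨fun h => h.2, fun h => ⟨fun e => hs (e ▸ hu), h⟩⟩
  refine good_tr (G' := Qt G Bn) aU (fun u hu ha => (aS s0 n0 u hu).2 (b0 ▸ ha))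
    (fun u hu ha => (aS s1 n1 u hu).2 (b1 ▸ ha)) (fun u hu ha => ?_) (h _ s0 s1 s2 ?_ ?_)
  · rcases h12 with ⟨-, e⟩ | ⟨e, -⟩
    · obtain ⟨x, hx, -⟩ := ha
      exact absurd (e ▸ hx.1) hx.2
    · exact ((aS s2 n2 u hu).2 (b2 ▸ ha.mono sdiff_subset Subset.rfl)).mono
        (singleton_subset_iff.2 ⟨rfl, e.symm⟩) Subset.rfl
  · refine ⟨mac, fr.hA, fr.hB, fr.ne, conn_congr (fun u hu w hw => (aU u hu w hw).2) fr.conn,
      disjoint_singleton_left.2 n0, disjoint_singleton_left.2 n1, disjoint_singleton_left.2 n2,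
      disjoint_singleton.2 n01, disjoint_singleton.2 n02, ?_, cn_single _, cn_single _,
      cn_single _, (aS s0 n0 A fr.hA).2 (b0 ▸ fr.a0), (aS s0 n0 B fr.hB).2 (b0 ▸ fr.b0),
      (aS s1 n1 A fr.hA).2 (b1 ▸ fr.a1), (aS s2 n2 B fr.hB).2 (b2 ▸ fr.b2),
      sa_single.2 ⟨n01, by rw [b0, b1]; exact fr.e1⟩,
      sa_single.2 ⟨n02, by rw [b0, b2]; exact fr.e2⟩⟩
    rcases h12 with ⟨e, -⟩ | ⟨e, -, e'⟩
    · exact Or.inl (by rw [e])
    · exact Or.inr ⟨disjoint_singleton.2 e, sa_single.2 ⟨e, by rw [b1, b2]; exact e'⟩⟩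
  · rcases md with md | md | md
    · exact Or.inl md
    · refine Or.inr (Or.inl ?_)
      rcases h12 with ⟨e, -⟩ | ⟨-, e, -⟩
      · rw [e]
      · exact absurd (md ▸ hs1) (disjoint_left.1 e hs1)
    · refine Or.inr (Or.inr ?_)
      rintro u hu _ rfl ha
      obtain ⟨z, hz, _, rfl, h3⟩ := (aS _ n0 u hu).1 (sa_single.2 ha)
      exact md _ hu z (b0 ▸ hz) h3

theorem red : StmtRED := by
  intro V _ _ G U A B s0 s1 s2 t ih fr md hn
  classical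
  simp only [NH, not_forall, not_exists, not_and] at hn
  obtain ⟨y, hy, v0, hv0, hne, hno⟩ := hn
  obtain ⟨K, hK⟩ : ∃ K : Set V, K = {u | Conn G (U \ {y}) v0 u} := ⟨_, rfl⟩
  have KU : ∀ u ∈ K, u ∈ U ∧ u ≠ y := fun u hu => by
    rw [hK] at hu
    exact Conn.mem (U := U \ {y}) hu ⟨hv0, hne⟩
  have vK : v0 ∈ K := by
    rw [hK]
    exact Conn.refl _ _
  have cK : Cn G K := hK ▸ cn_comp _ _
  have cl : ∀ a ∈ K, ∀ b ∈ U, G.Adj a b → b ∉ K → b = y := fun a ha b hb hab hbK => by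
    by_contra hby
    refine hbK ?_
    have ha' := KU a ha
    rw [hK] at ha ⊢
    exact Conn.trans ha (Conn.adj hab ha' ⟨hb, hby⟩)
  have AK : A ∉ K := fun h => hno A (Or.inl rfl) (KU A h).2 (by rwa [hK] at h)
  have BK : B ∉ K := fun h => hno B (Or.inr rfl) (KU B h).2 (by rwa [hK] at h)
  have yK : y ∉ K := fun h => (KU y h).2 rfl
  have n0 : s0 ∉ U := disjoint_singleton_left.1 fr.d0
  have n1 : s1 ∉ U := disjoint_singleton_left.1 fr.d1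
  have n2 : s2 ∉ U := disjoint_singleton_left.1 fr.d2
  obtain ⟨Bn, hB⟩ : ∃ Bn : V → Set V, ∀ a x, x ∈ Bn a ↔
      (x = a ∧ a ∉ K) ∨ (a = y ∧ x ∈ K ∧ SA G K {y}) :=
    ⟨fun a => {x | (x = a ∧ a ∉ K) ∨ (a = y ∧ x ∈ K ∧ SA G K {y})}, fun _ _ => Iff.rfl⟩
  have mac : Mac (Qt G Bn) := by
    refine mac_minor fr.mac Bn (fun w w' hw => ?_) (fun w => ?_) fun _ _ ha => ha.2
    · rw [disjoint_left]
      intro x h1 h2
      rcases (hB _ _).1 h1 with ⟨e, h3⟩ | ⟨e, h3, -⟩ <;>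
        rcases (hB _ _).1 h2 with ⟨f, h4⟩ | ⟨f, h4, -⟩
      · exact hw (e.symm.trans f)
      · exact h3 (e ▸ h4)
      · exact h4 (f ▸ h3)
      · exact hw (e.trans f.symm)
    · by_cases hw : w = y ∧ SA G K {y}
      · have e : Bn w = K ∪ {y} := by
          ext x
          rw [hB, hw.1]
          exact ⟨fun h => h.elim (fun h => Or.inr h.1) fun h => Or.inl h.2.1,
            fun h => h.elim (fun h => Or.inr ⟨rfl, h, hw.2⟩) fun h => Or.inl ⟨h, yK⟩⟩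
        rw [e]
        exact cK.union (cn_single _) hw.2
      · intro a ha b hb
        obtain ⟨rfl, -⟩ := ((hB _ _).1 ha).resolve_right fun h => hw ⟨h.1, h.2.2⟩
        obtain ⟨rfl, -⟩ := ((hB _ _).1 hb).resolve_right fun h => hw ⟨h.1, h.2.2⟩
        exact Conn.refl _ _
  have up : ∀ a ∉ K, ∀ b ∉ K, G.Adj a b → (Qt G Bn).Adj a b := fun a ha b hb hab =>
    ⟨hab.ne, a, (hB _ _).2 (Or.inl ⟨rfl, ha⟩), b, (hB _ _).2 (Or.inl ⟨rfl, hb⟩), hab⟩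
  have sK : ∀ s ∉ U, s ∉ K := fun s hs h => hs (KU s h).1
  have ups : ∀ a ∉ K, ∀ b ∉ K, SA G {a} {b} → SA (Qt G Bn) {a} {b} := fun a ha b hb hab =>
    sa_single.2 (up a ha b hb (sa_single.1 hab))
  have down : ∀ a ∈ U, ∀ b ∈ U, (Qt G Bn).Adj a b → G.Adj a b := by
    rintro a ha b hb ⟨hab, x, hx, z, hz, h⟩
    rcases (hB _ _).1 hx with ⟨rfl, h3⟩ | ⟨e, h3, -⟩ <;>
      rcases (hB _ _).1 hz with ⟨rfl, h4⟩ | ⟨f, h4, -⟩
    · exact h
    · exact absurd ((cl z h4 x ha h.symm h3).trans f.symm) hab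
    · exact absurd (e.trans (cl x h3 z hb h h4).symm) hab
    · exact absurd (e.trans f.symm) hab
  have walk : ∀ (P : Set V) (a b : V), a ∉ K → Conn G (U \ P) a b →
      (b ∉ K ∧ Conn (Qt G Bn) ((U \ K) \ P) a b) ∨
      (b ∈ K ∧ y ∉ P ∧ SA G K {y} ∧ Conn (Qt G Bn) ((U \ K) \ P) a y) := by
    intro P a b ha hc
    refine conn_ind (fun b => (b ∉ K ∧ Conn (Qt G Bn) ((U \ K) \ P) a b) ∨
      (b ∈ K ∧ y ∉ P ∧ SA G K {y} ∧ Conn (Qt G Bn) ((U \ K) \ P) a y)) hc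
      (Or.inl ⟨ha, Conn.refl _ _⟩) fun c hc d hd _ hcd h => ?_
    by_cases hdK : d ∈ K
    · rcases h with ⟨h1, h2⟩ | ⟨-, h2⟩
      · obtain rfl := cl d hdK c hc.1 hcd.symm h1
        exact Or.inr ⟨hdK, hc.2, ⟨d, hdK, _, rfl, hcd.symm⟩, h2⟩
      · exact Or.inr ⟨hdK, h2⟩
    · refine Or.inl ⟨hdK, ?_⟩
      rcases h with ⟨h1, h2⟩ | ⟨h1, -, -, h2⟩
      · exact h2.trans (Conn.adj (up c h1 d hdK hcd) ⟨⟨hc.1, h1⟩, hc.2⟩ ⟨⟨hd.1, hdK⟩, hd.2⟩)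
      · rwa [cl c h1 d hd.1 hcd hdK]
  have fr' : Fr (Qt G Bn) (U \ K) A B {s0} {s1} {s2} := by
    refine ⟨mac, ⟨fr.hA, AK⟩, ⟨fr.hB, BK⟩, fr.ne, ?_, fr.d0.mono_right sdiff_subset,
      fr.d1.mono_right sdiff_subset, fr.d2.mono_right sdiff_subset, fr.d01, fr.d02,
      fr.d12.imp id fun h => ⟨h.1, ups _ (sK _ n1) _ (sK _ n2) h.2⟩, cn_single _, cn_single _,
      cn_single _, ups _ (sK _ n0) _ AK fr.a0, ups _ (sK _ n0) _ BK fr.b0,
      ups _ (sK _ n1) _ AK fr.a1, ups _ (sK _ n2) _ BK fr.b2, ups _ (sK _ n0) _ (sK _ n1) fr.e1,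
      ups _ (sK _ n0) _ (sK _ n2) fr.e2⟩
    have := (walk ∅ A B AK (by rw [sdiff_empty]; exact fr.conn)).resolve_right fun h => BK h.1
    rw [sdiff_empty] at this
    exact this.2
  have md' : Mode (Qt G Bn) (U \ K) A B {s0} {s1} {s2} (if t ∈ K then y else t) := by
    rcases md with md | md | md
    · rw [if_neg (sK t md)]
      exact Or.inl fun h => md h.1
    · exact Or.inr (Or.inl md)
    · refine Or.inr (Or.inr ?_)
      rintro u hu _ rfl ⟨-, x, hx, z, hz, h⟩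
      obtain ⟨rfl, -⟩ := ((hB _ _).1 hx).resolve_right fun h => n0 (h.1 ▸ hy)
      rcases (hB _ _).1 hz with ⟨rfl, -⟩ | ⟨-, h4, -⟩
      · exact md _ hu.1 _ rfl h
      · rcases md z (KU z h4).1 _ rfl h with rfl | rfl
        · exact absurd h4 AK
        · exact absurd h4 BK
  obtain ⟨P, hP, hp, hc⟩ := ih (Qt G Bn) (U \ K) A B _ _ _ _
    (ncard_lt_ncard ⟨sdiff_subset, fun h => (h hv0).2 vK⟩ (toFinite _)) fr' md'
  have hp' : HP G P A B := hp.congr fun u hu w hw => down u (hP hu).1 w (hP hw).1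
  have att : ∀ a ∉ K, ∀ X : Set V, (∀ x ∈ X, x ∈ P ∨ x ∉ U) →
      At G (U \ P) X a ⊆ At (Qt G Bn) ((U \ K) \ P) X a := by
    rintro a ha X hX x ⟨hx, u, h1, h2⟩
    have xK : x ∉ K := fun h => (hX x hx).elim (fun h' => (hP h').2 h) fun h' => sK x h' h
    rcases walk P a u ha h1 with ⟨h3, h4⟩ | ⟨h3, h4, h5, h6⟩
    · exact ⟨hx, u, h4, up u h3 x xK h2⟩
    · refine ⟨hx, y, h6, fun e => ?_, u, (hB _ _).2 (Or.inr ⟨rfl, h3, h5⟩), x,
        (hB _ _).2 (Or.inl ⟨rfl, xK⟩), h2⟩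
      exact (hX x hx).elim (fun h' => h4 (e ▸ h')) fun h' => h' (e ▸ hy)
  have out : ∀ a ∉ K, (At G (U \ P) P a).ncard ≤ (At (Qt G Bn) ((U \ K) \ P) P a).ncard ∧
      cnt G U P {s0} {s1} {s2} a ≤ cnt (Qt G Bn) (U \ K) P {s0} {s1} {s2} a := fun a ha => by
    have e := ncard_le_ncard (att a ha P fun _ h => Or.inl h) (toFinite _)
    have e0 := tc_mono fun h => h.mono (att a ha {s0} fun _ h => Or.inr (h ▸ n0))
    have e1 := tc_mono fun h => h.mono (att a ha {s1} fun _ h => Or.inr (h ▸ n1))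
    have e2 := tc_mono fun h => h.mono (att a ha ({s2} \ {s1}) fun _ h => Or.inr (h.1 ▸ n2))
    unfold cnt
    omega
  refine ⟨P, fun _ h => (hP h).1, hp', fun v hv => ?_⟩
  have KP : K ⊆ U \ P := fun u hu => ⟨(KU u hu).1, fun h => (hP h).2 hu⟩
  by_cases hvK : v ∈ K
  swap
  · obtain ⟨c1, c2⟩ := hc v ⟨⟨hv.1, hvK⟩, hv.2⟩
    obtain ⟨o1, o2⟩ := out v hvK
    refine ⟨by omega, fun e => (c2 ?_).imp (by omega) (by omega)⟩
    rw [if_neg (e ▸ hvK), e]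
  by_cases hyy : y ∉ P ∧ SA G K {y}
  · obtain ⟨hyP, k, hk, _, rfl, hky⟩ := hyy
    have cc : Conn G (U \ P) v _ :=
      ((cK v hvK k hk).mono KP).trans (Conn.adj hky (KP hk) ⟨hy, hyP⟩)
    obtain ⟨c1, c2⟩ := hc _ ⟨⟨hy, yK⟩, hyP⟩
    obtain ⟨o1, o2⟩ := out _ yK
    unfold cnt tc at *
    simp only [At.conn cc]
    refine ⟨by omega, fun e => (c2 ?_).imp (by omega) (by omega)⟩
    rw [if_pos (e ▸ hvK)]
  have inK : ∀ X : Set V, ∀ x ∈ At G (U \ P) X v, x ∈ X ∧ SA G K {x} := by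
    rintro X x ⟨hx, u, h1, h2⟩
    refine ⟨hx, u, (conn_closed (W' := K) (fun a ha b hb hab => ?_) hvK h1).mem hvK, x, rfl, h2⟩
    by_contra hbK
    obtain rfl := cl a ha b hb.1 hab hbK
    exact hyy ⟨hb.2, a, ha, _, rfl, hab⟩
  have a1 : (At G (U \ P) P v).ncard ≤ 1 := by
    refine (ncard_le_ncard (t := {y}) (fun x hx => ?_) (toFinite _)).trans (ncard_singleton _).le
    obtain ⟨h1, k, hk, _, rfl, h2⟩ := inK P x hx
    exact cl k hk _ (hP h1).1 h2 (hP h1).2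
  refine ⟨?_, fun _ => Or.inr a1⟩
  by_contra hcn
  have t0 := tc_le (G := G) (W := U \ P) (Z := {s0}) (v := v)
  have t1 := tc_le (G := G) (W := U \ P) (Z := {s1}) (v := v)
  have t2 := tc_le (G := G) (W := U \ P) (Z := {s2} \ {s1}) (v := v)
  unfold cnt at hcn
  have ne : ∀ X : Set V, tc G (U \ P) X v = 1 → ∃ x ∈ X, SA G K {x} := fun X h => by
    by_contra h'
    rw [tc_neg fun ⟨x, hx⟩ => h' ⟨x, inK X x hx⟩] at h
    omega
  obtain ⟨x, hx⟩ : (At G (U \ P) P v).Nonempty := nonempty_of_ncard_ne_zero (by omega)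
  obtain ⟨hxP, hxK⟩ := inK P x hx
  obtain ⟨x0, hx0, k0⟩ := ne {s0} (by omega)
  obtain ⟨x1, hx1, k1⟩ := ne {s1} (by omega)
  obtain ⟨x2, ⟨hx2, h21⟩, k2⟩ := ne ({s2} \ {s1}) (by omega)
  obtain ⟨d12, e12⟩ := fr.d12.resolve_left fun e => h21 (e ▸ hx2)
  have PU : P ⊆ U := fun _ h => (hP h).1
  have KU' : K ⊆ U := fun u h => (KU u h).1
  exact k5 fr.mac P K _ _ _ hp'.cn cK fr.c0 fr.c1 fr.c2
    (disjoint_left.2 fun _ h => (hP h).2) (fr.d0.symm.mono_left PU) (fr.d1.symm.mono_left PU)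
    (fr.d2.symm.mono_left PU) (fr.d0.symm.mono_left KU') (fr.d1.symm.mono_left KU')
    (fr.d2.symm.mono_left KU') fr.d01 fr.d02 d12
    (hxK.symm.mono (singleton_subset_iff.2 hxP) Subset.rfl)
    (fr.a0.symm.mono (singleton_subset_iff.2 hp'.left) Subset.rfl)
    (fr.a1.symm.mono (singleton_subset_iff.2 hp'.left) Subset.rfl)
    (fr.b2.symm.mono (singleton_subset_iff.2 hp'.right) Subset.rfl)
    (k0.mono Subset.rfl (singleton_subset_iff.2 hx0))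
    (k1.mono Subset.rfl (singleton_subset_iff.2 hx1))
    (k2.mono Subset.rfl (singleton_subset_iff.2 hx2)) fr.e1 fr.e2 e12

theorem top : StmtTOP := by
  intro hS hR hBE hAL hCT hZ V _ _ n
  induction n with
  | zero => exact fun _ _ _ _ _ _ _ _ h => absurd h (Nat.not_lt_zero _)
  | succ n ih =>
    intro G U A B Z0 Z1 Z2 t hU
    have ih' : TP V U.ncard := fun G U' A B Z0 Z1 Z2 t h => ih G U' A B Z0 Z1 Z2 t (by omega)
    refine hS V U A B t (fun G s0 s1 s2 fr md => ?_) G Z0 Z1 Z2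
    by_cases nh : NH G U A B
    swap
    · exact hR V G U A B s0 s1 s2 t ih' fr md nh
    obtain ⟨G1, q, m, j, fr1, bd1, e1, f0, f1, f2⟩ := hBE V G U A B s0 s1 s2 fr nh
    have nh1 : NH G1 U A B := nh_tr e1 nh
    refine good_tr (G' := G1) e1 (fun u hu h => sa_single.2 ((f0 u hu).2 (sa_single.1 h)))
      (fun u hu h => sa_single.2 (f1 u hu (sa_single.1 h))) (Y2 := {s2}) ?_ ?_
    · rintro u hu ⟨_, ⟨rfl, h⟩, _, rfl, h'⟩
      exact ⟨_, ⟨rfl, h⟩, _, rfl, f2 _ hu h'⟩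
    by_cases htU : t ∈ U
    swap
    · exact hCT hAL V G1 U A B s0 s1 s2 t q m j ih' fr1 nh1 bd1 (Or.inl htU)
    rcases md with md | md | md
    · exact absurd htU md
    swap
    · exact hCT hAL V G1 U A B s0 s1 s2 t q m j ih' fr1 nh1 bd1
        (Or.inr (Or.inr fun u hu h => md u hu s0 rfl ((f0 u hu).1 h)))
    obtain rfl : s1 = s2 := singleton_injective md
    obtain ⟨G2, p, k, i, fr2, bd2, e2, g1, g0, -⟩ := hBE V G1 U A B s1 s0 s0 (fr_swap fr1) nh1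
    have nh2 : NH G2 U A B := nh_tr e2 nh1
    have bd3 := bd_tr e2 g1 bd1
    refine good_tr (G' := G2) e2 (fun u hu h => sa_single.2 (g0 u hu (sa_single.1 h)))
      (fun u hu h => sa_single.2 ((g1 u hu).2 (sa_single.1 h))) (Y2 := {s1})
      (fun u _ ⟨_, h, _⟩ => absurd h.1 h.2) ?_
    by_cases c1 : t ∈ q '' Iic m ∨ At G2 (U \ q '' Iic m) {s0} t = ∅
    · exact hCT hAL V G2 U A B s0 s1 s1 t q m j ih' (fr_swap fr2) nh2 bd3
        (Or.inr (Or.inl ⟨rfl, c1⟩))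
    by_cases c2 : t ∈ p '' Iic k ∨ At G2 (U \ p '' Iic k) {s1} t = ∅
    · exact good_swap (hCT hAL V G2 U A B s1 s0 s0 t p k i ih' fr2 nh2 bd2
        (Or.inr (Or.inl ⟨rfl, c2⟩)))
    rw [not_or] at c1 c2
    exact hZ hAL V G2 U A B s0 s1 t p k i q m j ih' (fr_swap fr2) bd2 bd3 htU c2.1 c1.1
      (nonempty_iff_ne_empty.2 c1.2) (nonempty_iff_ne_empty.2 c2.2)

end Pool.Agent.MP_856573_co.H74
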